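import Pool.Agent.W_a4f561_P58.Long58
import Pool.Agent.W_a4f561_P28.Own

/-!
MP_a4f561_co, polylog: the input `hR` of `own_abs` from the pockets of the phase (helper58).
-/

set_option autoImplicit false

namespace Pool.Agent.W_a4f561_P58

open Pool.Agent.W_a4f561_h26
open Pool.Agent.W_a4f561_P25
open Pool.Agent.W_a4f561_P28

variable {V : Type} {G : Bars V}

/-- Two D-steps of a phase with the same first long head: a head between the host and the barrier, seen after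
`tau1` of the first, has the host of the second on its route. -/
theorem pk_close {π : V → V} {z : V} {A : Set V} {tl : ℕ} (h : Seg G π z A) (hN : tl ≤ G.N)
    (hA : ∀ v ∈ A, G.t v ≤ tl) (hpk : ∀ y a c u, Ar G π z tl y a c u → π u ≠ y) :
    ∀ v1 v2, Pool.Agent.W_a4f561_P28.DS G π A v1 → Pool.Agent.W_a4f561_P28.DS G π A v2 → G.t v1 < G.t v2 → G.flh v1 = G.flh v2 → ∀ τ,
      G.tau1 v1 ≤ τ → τ ≤ G.t (G.lo v1) → G.ub (G.lo v1) τ ≠ G.flh v1 → Orb π (G.ub (G.lo v1) τ) (G.lo v2) := by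
  intro v1 v2 h1 h2 ht hy τ k1 k2 hne
  have s1 : Sp G π z tl v1 := ⟨h.orb _ h1.1, h.inn _ h1.1, h1.2.1, hA _ h1.2.2⟩
  have s2 : Sp G π z tl v2 := ⟨h.orb _ h2.1, h.inn _ h2.1, h2.2.1, hA _ h2.2.2⟩
  obtain ⟨w, w1, w2, w3⟩ := close h.ch hN hpk s1 s2 ht hy k1 k2 hne
  exact orb_trans w1 (orb_comp h.ch w2 (h.orb _ h2.2.2) w3)

end Pool.Agent.W_a4f561_P58
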