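import Pool.Agent.W_a4f561_P25.Area

/-!
MP_a4f561_co, polylog (helper1's text, section 5, own cost of a phase): the LONG heads (helper58). The phase is the part of
the route of `z` up to the time `tl`; `Sp` = D-steps inside the phase.
-/

set_option autoImplicit false

namespace Pool.Agent.W_a4f561_P58

open Pool.Agent.W_a4f561_h26
open Pool.Agent.W_a4f561_P25

variable {V : Type} {G : Bars V}

/-- A D-step `v → lo v` inside the phase. -/
def Sp (G : Bars V) (π : V → V) (z : V) (tl : ℕ) (v : V) : Prop :=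
  Orb π z v ∧ G.inn v ∧ π v = G.lo v ∧ G.t (G.lo v) ≤ tl

theorem inn_le {v : V} (h : G.t v ≤ G.N) : G.inn v := by
  constructor
  · rintro rfl
    have := G.t_bot
    omega
  · rintro rfl
    have := G.t_top
    omega

section

variable {π : V → V} (hπ : Ch G π) {z : V} {tl : ℕ} (hN : tl ≤ G.N)

include hπ

/-- A vertex of an area leads to the phase before the touch `c` is over, if no area vertex goes to the barrier. -/
theorem Ar_out (hN : tl ≤ G.N) {y : V} {a c : ℕ} (hcl : ∀ u, Ar G π z tl y a c u → π u ≠ y) :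
    ∀ (n : ℕ) (h : V), G.N + 1 - G.t h ≤ n → Ar G π z tl y a c h →
      ∃ w, Orb π h w ∧ Orb π z w ∧ G.t w ≤ G.t (host G π z c) := by
  intro n
  induction n with
  | zero =>
    intro h hn hh
    obtain ⟨_, _, k2, _⟩ := hh.p0 hπ hN
    have := hh.2.2.1.2.1
    omega
  | succ n ih =>
    intro h hn hh
    obtain ⟨_, _, k2, _⟩ := hh.p0 hπ hN
    have hc := hh.2.2.1.2.1
    rcases hh.fwd hπ hN hπ (hcl h hh) with h1 | h1
    · have h2 : G.t h < G.t (π h) := by
        rcases hπ.2.2 h (inn_le (by omega)) with h3 | h3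
        · rw [h3]; exact t_lo G (inn_le (by omega))
        · rw [h3]; exact t_up G (inn_le (by omega))
      obtain ⟨w, w1, w2, w3⟩ := ih (π h) (by omega) h1
      exact ⟨w, orb_trans (orb_step (orb_refl π h)) w1, w2, w3⟩
    · exact ⟨π h, orb_step (orb_refl π h), h1.1, h1.2⟩

omit hπ in
theorem Sp.inn_lo (hN : tl ≤ G.N) {v : V} (hv : Sp G π z tl v) : G.inn (G.lo v) := inn_le (hv.2.2.2.trans hN)

/-- The host on a D-step. -/
theorem Sp.host {v : V} (hN : tl ≤ G.N) (hv : Sp G π z tl v) {τ : ℕ} (h1 : G.t v < τ) (h2 : τ ≤ G.t (G.lo v)) :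
    W_a4f561_h26.host G π z τ = G.lo v := by
  have := host_btw hπ hv.1 h1 (by rw [hv.2.2.1]; exact h2) (h2.trans (hv.2.2.2.trans hN))
  rw [hv.2.2.1] at this
  exact this

/-- The first long head is a touch. -/
theorem Sp.tc {v : V} (hN : tl ≤ G.N) (hv : Sp G π z tl v) : Tc G π z tl (G.flh v) (G.tau1 v) := by
  obtain ⟨s1, s2, s3, s4, s5, s6⟩ := tau1_spec G hv.2.1 (hv.inn_lo hN)
  have hh := hv.host hπ hN s1 s2
  refine ⟨lt_of_le_of_lt (orb_t hπ hv.1) s1, s2.trans hv.2.2.2, ?_, ?_⟩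
  · rw [hh]; rfl
  · rw [hh]; exact s3

/-- A head other than `flh`, seen after `tau1 v1`, has merged with the phase before the end of the host of the next
D-step with the same first long head. -/
theorem close (hN : tl ≤ G.N) (hcl : ∀ y a c u, Ar G π z tl y a c u → π u ≠ y) {v1 v2 : V}
    (hv1 : Sp G π z tl v1) (hv2 : Sp G π z tl v2) (ht : G.t v1 < G.t v2) (hy : G.flh v1 = G.flh v2) {τ : ℕ}
    (h1 : G.tau1 v1 ≤ τ) (h2 : τ ≤ G.t (G.lo v1)) (hne : G.ub (G.lo v1) τ ≠ G.flh v1) :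
    ∃ w, Orb π (G.ub (G.lo v1) τ) w ∧ Orb π z w ∧ G.t w ≤ G.t (G.lo v2) := by
  have i1 := hv1.inn_lo hN
  have i2 := hv2.inn_lo hN
  obtain ⟨s1, s2, s3, s4, s5, s6⟩ := tau1_spec G hv1.2.1 i1
  obtain ⟨r1, r2, r3, r4, r5, r6⟩ := tau1_spec G hv2.2.1 i2
  have t1 := hv1.2.2.2
  have t2 := hv2.2.2.2
  have e1 : host G π z τ = G.lo v1 := hv1.host hπ hN (by omega) h2
  have e2 : host G π z (G.tau1 v2) = G.lo v2 := hv2.host hπ hN r1 r2
  have hub := ub_spec G (x := G.lo v1) (τ := τ) (by omega) i1.2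
  have hlt : G.r (G.ub (G.lo v1) τ) < G.r (G.flh v1) :=
    lt_of_le_of_ne (s6 τ h1 h2) (fun e => hne (G.r_inj e))
  -- `lo v1` dies before `tau1 v2`
  have hor : Orb π v1 v2 := orb_comp hπ hv1.1 hv2.1 ht.le
  have hn : G.t (G.lo v1) ≤ G.t v2 := by
    obtain ⟨k, hk⟩ := hor
    cases k with
    | zero =>
      exfalso
      have : v1 = v2 := hk
      rw [this] at ht
      exact lt_irrefl _ ht
    | succ k =>
      have h3 : Orb π (π v1) v2 := ⟨k, by rw [← hk, Function.iterate_succ_apply]⟩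
      rw [hv1.2.2.1] at h3
      exact orb_t hπ h3
  have ha := hv1.tc hπ hN
  have hc := hv2.tc hπ hN
  rw [← hy] at hc
  rcases between hπ hN ha hc h1 (by omega) hub.1 (by rw [e1]; exact hub.2.1) hlt with h3 | h3
  · obtain ⟨w, w1, w2, w3⟩ := Ar_out hπ hN (hcl _ _ _) (G.N + 1) _ (by omega) h3
    rw [e2] at w3
    exact ⟨w, w1, w2, w3⟩
  · rw [e2] at h3
    exact ⟨_, orb_refl _ _, h3.1, h3.2⟩

/-- If the first long head of a D-step meets the route of `z` at `w`, so does every long head (squeezing). -/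
theorem squeeze (hN : tl ≤ G.N) {v w : V} (hv : Sp G π z tl v) (hw : Orb π z w) (hwN : G.t w ≤ G.N)
    (hy : Orb π (G.flh v) w) {τ : ℕ} (h1 : G.tau1 v ≤ τ) (h2 : τ ≤ G.t (G.lo v)) :
    Orb π (G.ub (G.lo v) τ) w := by
  have i1 := hv.inn_lo hN
  have iw : G.inn w := inn_le hwN
  obtain ⟨s1, s2, s3, s4, s5, s6⟩ := tau1_spec G hv.2.1 i1
  have t1 := orb_t hπ hy
  have tl1 := hv.2.2.2
  have hx : Orb π z (G.lo v) := by
    have := orb_step hv.1
    rw [hv.2.2.1] at this
    exact this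
  have hox : Orb π (G.lo v) w := orb_comp hπ hx hw (by omega)
  have hub := ub_spec G (x := G.lo v) (τ := τ) (by omega) i1.2
  have a1 := al_lo G hv.2.1
  have k1 := host_t hπ hox iw
  have k2 := host_t hπ hy iw
  have m1 := order_one hπ (u := G.lo v) (v := G.ub (G.lo v) τ) (τ1 := τ) (τ2 := G.t w)
    (le_trans a1.1.1 (by omega)) hub.1.1 (by omega) (by omega)
    (by rw [host_self hπ h2, host_self hπ hub.1.2]; exact le_of_lt hub.2.1)
  have m2 := order_one hπ (u := G.ub (G.lo v) τ) (v := G.flh v) (τ1 := τ) (τ2 := G.t w)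
    hub.1.1 (le_trans s4.1 h1) (by omega) (by omega)
    (by rw [host_self hπ hub.1.2, host_self hπ (by omega)]; exact s6 τ h1 h2)
  rw [k1] at m1
  rw [k2] at m2
  have e : host G π (G.ub (G.lo v) τ) (G.t w) = w := G.r_inj (le_antisymm m2 m1)
  have := host_orb G π (G.ub (G.lo v) τ) (G.t w)
  rw [e] at this
  exact this

end

/-- LONG HEADS: at most two unmerged pairs per first long head, and every such first long head is forced or comes from
a bad first step. -/
theorem long_card {π : V → V} (hπ : Ch G π) {z : V} {tl : ℕ} (hN : tl ≤ G.N)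
    (hcl : ∀ y a c u, Ar G π z tl y a c u → π u ≠ y) {T : ℕ} (hT : T ≤ G.N) {p : V} (P : Finset (V × V))
    (hP : ∀ q ∈ P, ∃ v, Sp G π z tl v ∧ Orb π p v ∧ q.1 = G.lo v ∧ G.t q.1 < T ∧
      (∃ τ, G.tau1 v ≤ τ ∧ τ ≤ G.t q.1 ∧ q.2 = G.ub q.1 τ) ∧ ∀ w, Orb π p w → Orb π q.2 w → T ≤ G.t w)
    (h1 : ∀ q ∈ P, ∀ q' ∈ P, q.1 = q'.1 → q = q') (h2 : ∀ q ∈ P, ∀ q' ∈ P, q.2 = q'.2 → q = q')
    (F : V → Prop) (hF : ∀ v v', Sp G π z tl v → Sp G π z tl v' → F v → F v' → G.flh v = G.flh v')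
    (Bad : Finset V)
    (hB : ∀ v, Sp G π z tl v → G.t (G.lo v) < T →
      (∀ v', Sp G π z tl v' → G.t v' < G.t v → G.flh v' ≠ G.flh v) → ¬ F v →
      v ∈ Bad ∨ ∃ w, Orb π (G.flh v) w ∧ Orb π z w ∧ G.t w < T) :
    P.card ≤ 2 * (Bad.card + 1) := by
  classical
  -- the D-step of a pair
  let f : V × V → V := fun q => if h : ∃ v, Sp G π z tl v ∧ Orb π p v ∧ q.1 = G.lo v ∧ G.t q.1 < T ∧
      (∃ τ, G.tau1 v ≤ τ ∧ τ ≤ G.t q.1 ∧ q.2 = G.ub q.1 τ) ∧ ∀ w, Orb π p w → Orb π q.2 w → T ≤ G.t w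
      then h.choose else z
  have hf : ∀ q ∈ P, Sp G π z tl (f q) ∧ Orb π p (f q) ∧ q.1 = G.lo (f q) ∧ G.t q.1 < T ∧
      (∃ τ, G.tau1 (f q) ≤ τ ∧ τ ≤ G.t q.1 ∧ q.2 = G.ub q.1 τ) ∧ ∀ w, Orb π p w → Orb π q.2 w → T ≤ G.t w := by
    intro q hq
    have h := hP q hq
    have e : f q = h.choose := dif_pos h
    rw [e]
    exact h.choose_spec
  -- two pairs with the same first long head
  have key : ∀ q ∈ P, ∀ q' ∈ P, G.flh (f q) = G.flh (f q') → q.2 ≠ G.flh (f q) → ¬ G.t (f q) < G.t (f q') := by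
    intro q hq q' hq' he hne hlt
    obtain ⟨a1, a2, a3, a4, ⟨τ, a5, a6, a7⟩, a8⟩ := hf q hq
    obtain ⟨b1, b2, b3, b4, -, -⟩ := hf q' hq'
    rw [a3] at a6 a7
    obtain ⟨w, w1, w2, w3⟩ := close hπ hN hcl a1 b1 hlt he a5 a6 (by rw [← a7]; exact hne)
    rw [← a7] at w1
    have i1 := a1.inn_lo hN
    have tl1 := a1.2.2.2
    obtain ⟨s1, s2, s3, s4, s5, s6⟩ := tau1_spec G a1.2.1 i1
    have hal := (ub_spec G (x := G.lo (f q)) (τ := τ) (by omega) i1.2).1
    rw [← a7] at hal
    have hw : G.t (f q) ≤ G.t w := by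
      have := orb_t hπ w1
      have := hal.2
      omega
    have := a8 w (orb_trans a2 (orb_comp hπ a1.1 w2 hw)) w1
    rw [b3] at b4
    omega
  have tne : ∀ q ∈ P, ∀ q' ∈ P, G.t (f q) = G.t (f q') → q = q' := by
    intro q hq q' hq' he
    have := G.t_inj he
    refine h1 q hq q' hq' ?_
    rw [(hf q hq).2.2.1, (hf q' hq').2.2.1, this]
  let Y : Finset V := P.image (fun q => G.flh (f q))
  have c1 : P.card ≤ 2 * Y.card := by
    refine Finset.card_le_mul_card_image P 2 (fun y hy => ?_)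
    have hs : P.filter (fun q => G.flh (f q) = y) ⊆
        P.filter (fun q => G.flh (f q) = y ∧ q.2 = y) ∪ P.filter (fun q => G.flh (f q) = y ∧ q.2 ≠ y) := by
      intro q hq
      rw [Finset.mem_filter] at hq
      rw [Finset.mem_union, Finset.mem_filter, Finset.mem_filter]
      by_cases h : q.2 = y
      · exact Or.inl ⟨hq.1, hq.2, h⟩
      · exact Or.inr ⟨hq.1, hq.2, h⟩
    refine (Finset.card_le_card hs).trans ((Finset.card_union_le _ _).trans ?_)
    have k1 : (P.filter (fun q => G.flh (f q) = y ∧ q.2 = y)).card ≤ 1 := by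
      rw [Finset.card_le_one]
      intro q hq q' hq'
      rw [Finset.mem_filter] at hq hq'
      exact h2 q hq.1 q' hq'.1 (by rw [hq.2.2, hq'.2.2])
    have k2 : (P.filter (fun q => G.flh (f q) = y ∧ q.2 ≠ y)).card ≤ 1 := by
      rw [Finset.card_le_one]
      intro q hq q' hq'
      rw [Finset.mem_filter] at hq hq'
      have e : G.flh (f q) = G.flh (f q') := by rw [hq.2.1, hq'.2.1]
      have l1 := key q hq.1 q' hq'.1 e (by rw [hq.2.1]; exact hq.2.2)
      have l2 := key q' hq'.1 q hq.1 e.symm (by rw [hq'.2.1]; exact hq'.2.2)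
      exact tne q hq.1 q' hq'.1 (by omega)
    omega
  -- the first long heads
  have c2 : Y.card ≤ Bad.card + 1 := by
    -- first step with the same first long head
    have first : ∀ y ∈ Y, ∃ v, Sp G π z tl v ∧ G.flh v = y ∧ G.t (G.lo v) < T ∧
        (∀ v', Sp G π z tl v' → G.t v' < G.t v → G.flh v' ≠ G.flh v) ∧ (F v ∨ v ∈ Bad) := by
      intro y hy
      rw [Finset.mem_image] at hy
      obtain ⟨q, hq, hqy⟩ := hy
      obtain ⟨a1, a2, a3, a4, ⟨τ, a5, a6, a7⟩, a8⟩ := hf q hq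
      -- minimal time
      have hex : ∃ n, ∃ v, Sp G π z tl v ∧ G.flh v = y ∧ G.t v = n := ⟨_, f q, a1, hqy, rfl⟩
      obtain ⟨v, v1, v2, v3⟩ := Nat.find_spec hex
      have vmin : ∀ v', Sp G π z tl v' → G.t v' < G.t v → G.flh v' ≠ G.flh v := by
        intro v' hv' hlt he
        rw [v3] at hlt
        exact Nat.find_min hex hlt ⟨v', hv', he.trans v2, rfl⟩
      have hle : G.t v ≤ G.t (f q) := by
        rw [v3]
        exact Nat.find_min' hex ⟨f q, a1, hqy, rfl⟩
      have hvx : G.t (G.lo v) ≤ G.t (G.lo (f q)) := by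
        have ho := orb_comp hπ v1.1 a1.1 hle
        obtain ⟨k, hk⟩ := ho
        cases k with
        | zero =>
          have : v = f q := hk
          rw [this]
        | succ k =>
          have h3 : Orb π (π v) (f q) := ⟨k, by rw [← hk, Function.iterate_succ_apply]⟩
          rw [v1.2.2.1] at h3
          have h4 := orb_t hπ h3
          have h5 := t_lo G a1.2.1
          omega
      have hvT : G.t (G.lo v) < T := by
        rw [a3] at a4
        omega
      refine ⟨v, v1, v2, hvT, vmin, ?_⟩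
      by_cases hFv : F v
      · exact Or.inl hFv
      · right
        rcases hB v v1 hvT vmin hFv with h | ⟨w, w1, w2, w3⟩
        · exact h
        · exfalso
          rw [v2, ← hqy] at w1
          rw [a3] at a6 a7 a4
          have i1 := a1.inn_lo hN
          have tl1 := a1.2.2.2
          have hs := squeeze hπ hN a1 w2 (by omega) w1 a5 a6
          rw [← a7] at hs
          obtain ⟨s1, s2, s3, s4, s5, s6⟩ := tau1_spec G a1.2.1 i1
          have hw := orb_t hπ w1
          have := a8 w (orb_trans a2 (orb_comp hπ a1.1 w2 (by omega))) hs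
          omega
    choose! g g1 g2 g3 g4 g5 using first
    have hs : Y ⊆ Y.filter (fun y => F (g y)) ∪ Y.filter (fun y => g y ∈ Bad) := by
      intro y hy
      rw [Finset.mem_union, Finset.mem_filter, Finset.mem_filter]
      rcases g5 y hy with h | h
      · exact Or.inl ⟨hy, h⟩
      · exact Or.inr ⟨hy, h⟩
    refine (Finset.card_le_card hs).trans ((Finset.card_union_le _ _).trans ?_)
    have k1 : (Y.filter (fun y => F (g y))).card ≤ 1 := by
      rw [Finset.card_le_one]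
      intro y hy y' hy'
      rw [Finset.mem_filter] at hy hy'
      have := hF _ _ (g1 y hy.1) (g1 y' hy'.1) hy.2 hy'.2
      rw [g2 y hy.1, g2 y' hy'.1] at this
      exact this
    have k2 : (Y.filter (fun y => g y ∈ Bad)).card ≤ Bad.card := by
      refine Finset.card_le_card_of_injOn g (fun y hy => ?_) (fun y hy y' hy' he => ?_)
      · exact (Finset.mem_filter.1 hy).2
      · have m1 := (Finset.mem_filter.1 hy).1
        have m2 := (Finset.mem_filter.1 hy').1
        rw [← g2 y m1, ← g2 y' m2, he]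
    omega
  omega

end Pool.Agent.W_a4f561_P58
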